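import Pool.Agent.H49.TOH.XS3

/-!
# Board `toh_modules`, row XS2
-/

set_option autoImplicit false

noncomputable section

namespace Pool.Agent.H49.TOH

open Pool.Agent.H57.CP Pool.Agent.H39.TO

theorem cos_three_eq (p : ℕ) : Real.cos ((3 : ℕ) * Real.pi / p) =
    4 * Real.cos (Real.pi / p) ^ 3 - 3 * Real.cos (Real.pi / p) := by
  rw [← Real.cos_three_mul]
  congr 1
  push_cast
  ring

theorem cos_gt_half (p : ℕ) (hp : 5 ≤ p) : 1 / 2 < Real.cos (Real.pi / p) := by
  rw [← Real.cos_pi_div_three]
  have hp0 : (5 : ℝ) ≤ p := by exact_mod_cast hp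
  have hpi := Real.pi_pos
  apply Real.cos_lt_cos_of_nonneg_of_le_pi
  · positivity
  · linarith
  · rw [div_lt_div_iff₀ (by linarith) (by norm_num)]
    nlinarith

theorem pf_XS2 (hNRB : T_NRB) (hREP : T_REP) (hPSI : T_PSI) (hBWS : T_BWS) (hCHT : T_CHT)
    (hSGE : T_SGE) (hBEB : T_BEB) (hBEE : T_BEE) (hBEF : T_BEF) (hORR : T_ORR) : T_XS2 := by
  intro p hodd hp h3
  have hne : 3 ≠ 1 ∧ 2 ≠ 1 ∧ p ≠ 1 := ⟨by omega, by omega, by omega⟩
  have hcop : Nat.Coprime 3 p := (Nat.Prime.coprime_iff_not_dvd Nat.prime_three).mpr h3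
  have h := star hNRB hREP hPSI hBWS hSGE hBEB hBEE hBEF hORR (cox 3 2 p hne) p 3 1 3 rfl
    (by omega) (by omega) (Nat.coprime_one_left p) hcop
    (ss (cox 3 2 p hne) 2 * ss (cox 3 2 p hne) 1) 2 ?_ ?_
    (cos_sq_ne p 1 3 (by omega) (by omega) (by omega))
  · exact h
  · refine closure_top (cox 3 2 p hne) p 3 1 _ (by omega) hcop (Or.inr rfl) rfl ?_
    rw [mul_inv_rev, CoxeterSystem.inv_simple, CoxeterSystem.inv_simple, pow_succ, pow_two]
    simp only [mul_assoc]
  · intro al σ hN hS
    have h01 : mk (al 0) (al 1) = 1 / 2 := by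
      have := hN.fin 0 1 (by decide) (by change (3 : ℕ) ≠ 0; omega)
      rw [this]
      exact cos_pi_three
    have h02 : mk (al 0) (al 2) = 0 := by
      have := hN.fin 0 2 (by decide) (by change (2 : ℕ) ≠ 0; omega)
      rw [this]
      exact cos_pi_two
    have h12 : mk (al 1) (al 2) = Real.cos (Real.pi / p) :=
      hN.fin 1 2 (by decide) (by change p ≠ 0; omega)
    have hch := cos_gt_half p hp
    set c := Real.cos (Real.pi / p) with hcdef
    have hn : σ (ss (cox 3 2 p hne) 2 * ss (cox 3 2 p hne) 1) (al 2) =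
        (2 * c) • al 1 + (4 * c ^ 2 - 1) • al 2 := by
      rw [map_mul, Module.End.mul_apply, hS 1, hS 2, refl_eq (al 1), h12, refl_eq (al 2)]
      have h1 : mk (al 2) (al 2 + (2 * c) • al 1) = -1 + 2 * c * c := by
        rw [mk_add_right, mk_smul_right, hN.unit, mk_comm (al 2), h12]
      rw [h1]
      module
    have m0 : mk ((2 * c) • al 1 + (4 * c ^ 2 - 1) • al 2) (al 0) = c := by
      rw [mk_add_left, mk_smul_left, mk_smul_left, mk_comm (al 1), mk_comm (al 2), h01, h02]; ring
    have m1 : mk ((2 * c) • al 1 + (4 * c ^ 2 - 1) • al 2) (al 1) =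
        Real.cos ((3 : ℕ) * Real.pi / p) := by
      rw [mk_add_left, mk_smul_left, mk_smul_left, hN.unit, mk_comm (al 2), h12, cos_three_eq]; ring
    rw [hn]
    refine ⟨0, 2 * c, 4 * c ^ 2 - 1, by module, by nlinarith, ?_, ?_, ?_⟩
    · rw [m0, cos_one_eq]
    · rw [m1]
    · rcases Nat.lt_or_ge 5 p with h5 | h5
      · have hp7 : 7 ≤ p := by
          rcases hodd with ⟨m, hm⟩
          omega
        refine fix_star hCHT _ al σ hN hS _ ?_ ?_
        · rw [m0]; linarith
        · rw [m1]; exact cos_pos_of p hp 3 (by omega)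
      · have hp5 : p = 5 := by omega
        -- the angle `3 π / 5`
        have hc3 : Real.cos ((3 : ℕ) * Real.pi / p) < 0 := by
          apply Real.cos_neg_of_pi_div_two_lt_of_lt
          · rw [hp5]
            have := Real.pi_pos
            push_cast
            linarith
          · rw [hp5]
            have := Real.pi_pos
            push_cast
            linarith
        have hcc : 0 < c + Real.cos ((3 : ℕ) * Real.pi / p) := by
          have h2 : 0 < Real.cos ((2 : ℕ) * Real.pi / p) := cos_pos_of p hp 2 (by omega)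
          rw [cos_two_eq, ← hcdef] at h2
          rw [cos_three_eq, ← hcdef]
          have h4 : c + (4 * c ^ 3 - 3 * c) = 2 * c * (2 * c ^ 2 - 1) := by ring
          rw [h4]
          have hc0 : 0 < c := by linarith
          positivity
        intro g hg hgn
        set n := (2 * c) • al 1 + (4 * c ^ 2 - 1) • al 2 with hndef
        set x : V4 := -(Pool.Agent.H57.CP.refl (al 1) n) with hxdef
        have hx : x = -(n + (2 * Real.cos ((3 : ℕ) * Real.pi / p)) • al 1) := by
          rw [hxdef, refl_eq, mk_comm (al 1) n, m1]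
        have x1 : mk x (al 1) < 0 := by
          rw [hx, mk_neg_left, mk_add_left, mk_smul_left, m1, hN.unit]
          linarith
        have x0 : mk x (al 0) < 0 := by
          rw [hx, mk_neg_left, mk_add_left, mk_smul_left, m0, mk_comm (al 1), h01]
          linarith
        have hs1 : ss (cox 3 2 p hne) 1 ∈
            Subgroup.closure {ss (cox 3 2 p hne) 0, ss (cox 3 2 p hne) 1} :=
          Subgroup.subset_closure (by simp)
        have hself : ss (cox 3 2 p hne) 1 * ss (cox 3 2 p hne) 1 = 1 :=
          (cox 3 2 p hne).toCoxeterSystem.simple_mul_simple_self 1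
        have hfx : σ (ss (cox 3 2 p hne) 1 * g * ss (cox 3 2 p hne) 1) x = x := by
          have hrr : Pool.Agent.H57.CP.refl (al 1) (Pool.Agent.H57.CP.refl (al 1) n) = n := by
            have h6 : (σ (ss (cox 3 2 p hne) 1) * σ (ss (cox 3 2 p hne) 1)) n = n := by
              rw [← map_mul, hself, map_one]
              rfl
            rw [hS 1] at h6
            exact h6
          rw [map_mul, map_mul, Module.End.mul_apply, Module.End.mul_apply, hS 1, hxdef, map_neg,
            hrr, map_neg, hgn, map_neg]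
        have h7 := hCHT _ al σ hN hS 0 1 (ss (cox 3 2 p hne) 1 * g * ss (cox 3 2 p hne) 1) x
          (by decide) (Subgroup.mul_mem _ (Subgroup.mul_mem _ hs1 hg) hs1) x0 x1 hfx
        calc g = ss (cox 3 2 p hne) 1 * (ss (cox 3 2 p hne) 1 * g * ss (cox 3 2 p hne) 1) *
              ss (cox 3 2 p hne) 1 := by
              rw [mul_assoc, mul_assoc, mul_assoc, hself, mul_one, ← mul_assoc, hself, one_mul]
          _ = 1 := by rw [h7, mul_one, hself]

end Pool.Agent.H49.TOH
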