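import Pool.Agent.H49.TOH.Star

/-!
# Board `toh_modules`, row XS3 (and the trigonometry shared with XS1)
-/

set_option autoImplicit false

noncomputable section

namespace Pool.Agent.H49.TOH

open Pool.Agent.H57.CP Pool.Agent.H39.TO

/-- `cos(π / p)` is positive for `p ≥ 5`. -/
theorem cos_pos_of (p : ℕ) (hp : 5 ≤ p) (k : ℕ) (hk : 2 * k < p) :
    0 < Real.cos (k * Real.pi / p) := by
  have hp0 : (0 : ℝ) < p := by exact_mod_cast (by omega : 0 < p)
  apply Real.cos_pos_of_mem_Ioo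
  constructor
  · have : 0 ≤ (k : ℝ) * Real.pi / p := by positivity
    have := Real.pi_pos
    linarith
  · rw [div_lt_iff₀ hp0]
    have h1 : (2 * k : ℝ) < p := by exact_mod_cast hk
    have := Real.pi_pos
    nlinarith

/-- `cos² (k π / p) ≠ cos² (k' π / p)`. -/
theorem cos_sq_ne (p k k' : ℕ) (hp : 0 < p) (h1 : k < k') (h2 : k + k' < p) :
    (Real.cos (k * Real.pi / p)) ^ 2 ≠ (Real.cos (k' * Real.pi / p)) ^ 2 := by
  have hp0 : (0 : ℝ) < p := by exact_mod_cast hp
  have hpi := Real.pi_pos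
  intro hcon
  have h3 : Real.sin ((k + k' : ℕ) * Real.pi / p) * Real.sin ((k' - k : ℕ) * Real.pi / p) =
      (Real.cos (k * Real.pi / p)) ^ 2 - (Real.cos (k' * Real.pi / p)) ^ 2 := by
    have e1 : ((k + k' : ℕ) : ℝ) * Real.pi / p = k * Real.pi / p + k' * Real.pi / p := by
      push_cast; ring
    have e2 : ((k' - k : ℕ) : ℝ) * Real.pi / p = k' * Real.pi / p - k * Real.pi / p := by
      rw [Nat.cast_sub h1.le]; ring
    rw [e1, e2, Real.sin_add, Real.sin_sub]
    have s1 := Real.sin_sq_add_cos_sq (k * Real.pi / p)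
    have s2 := Real.sin_sq_add_cos_sq (k' * Real.pi / p)
    linear_combination (Real.cos (k' * Real.pi / p)) ^ 2 * (-s1) +
      (Real.cos (k * Real.pi / p)) ^ 2 * s2
  have pos : ∀ m : ℕ, 0 < m → m < p → 0 < Real.sin (m * Real.pi / p) := by
    intro m hm0 hm
    apply Real.sin_pos_of_pos_of_lt_pi
    · have : (0 : ℝ) < m := by exact_mod_cast hm0
      positivity
    · rw [div_lt_iff₀ hp0]
      have : (m : ℝ) < p := by exact_mod_cast hm
      nlinarith
  have h4 := pos (k + k') (by omega) h2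
  have h5 := pos (k' - k) (by omega) (by omega)
  have h6 := mul_pos h4 h5
  rw [h3, hcon] at h6
  simp at h6

theorem cop_two (p : ℕ) (h : Odd p) : Nat.Coprime 2 p := by
  rw [Nat.coprime_two_left]
  exact h

theorem cos_two_eq (p : ℕ) : Real.cos ((2 : ℕ) * Real.pi / p) = 2 * Real.cos (Real.pi / p) ^ 2 - 1 := by
  rw [← Real.cos_two_mul]
  congr 1
  push_cast
  ring

theorem cos_one_eq (p : ℕ) : Real.cos ((1 : ℕ) * Real.pi / p) = Real.cos (Real.pi / p) := by
  norm_num

theorem cos_pi_two : Real.cos (Real.pi / (2 : ℕ)) = 0 := by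
  norm_num

theorem cos_pi_three : Real.cos (Real.pi / (3 : ℕ)) = 1 / 2 := by
  norm_num

theorem pf_XS3 (hNRB : T_NRB) (hREP : T_REP) (hPSI : T_PSI) (hBWS : T_BWS) (hCHT : T_CHT)
    (hSGE : T_SGE) (hBEB : T_BEB) (hBEE : T_BEE) (hBEF : T_BEF) (hORR : T_ORR) : T_XS3 := by
  intro p hodd hp
  have hne : p ≠ 1 ∧ 2 ≠ 1 ∧ p ≠ 1 := ⟨by omega, by omega, by omega⟩
  have h := star hNRB hREP hPSI hBWS hSGE hBEB hBEE hBEF hORR (cox p 2 p hne) p p 1 2 rfl
    (by omega) (by omega) (Nat.coprime_one_left p) (cop_two p hodd) (ss (cox p 2 p hne) 2) 1 ?_ ?_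
    (cos_sq_ne p 1 2 (by omega) (by omega) (by omega))
  · exact h
  · refine closure_top (cox p 2 p hne) p 2 1 _ (by omega) (cop_two p hodd) (Or.inr rfl) rfl ?_
    rw [CoxeterSystem.inv_simple, pow_two]
    simp only [mul_assoc]
  · intro al σ hN hS
    have h01 : mk (al 0) (al 1) = Real.cos (Real.pi / p) :=
      hN.fin 0 1 (by decide) (by change p ≠ 0; omega)
    have h02 : mk (al 0) (al 2) = 0 := by
      have := hN.fin 0 2 (by decide) (by change (2 : ℕ) ≠ 0; omega)
      rw [this]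
      exact cos_pi_two
    have h12 : mk (al 1) (al 2) = Real.cos (Real.pi / p) :=
      hN.fin 1 2 (by decide) (by change p ≠ 0; omega)
    have hn : σ (ss (cox p 2 p hne) 2) (al 1) = al 1 + (2 * Real.cos (Real.pi / p)) • al 2 := by
      rw [hS 2, refl_eq, mk_comm (al 2) (al 1), h12]
    have hc : 0 < Real.cos (Real.pi / p) := by
      have := cos_pos_of p hp 1 (by omega)
      rwa [cos_one_eq] at this
    have hc2 : 0 < Real.cos ((2 : ℕ) * Real.pi / p) := cos_pos_of p hp 2 (by omega)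
    have m0 : mk (al 1 + (2 * Real.cos (Real.pi / p)) • al 2) (al 0) = Real.cos (Real.pi / p) := by
      rw [mk_add_left, mk_smul_left, mk_comm (al 1), mk_comm (al 2), h01, h02]; ring
    have m1 : mk (al 1 + (2 * Real.cos (Real.pi / p)) • al 2) (al 1) =
        Real.cos ((2 : ℕ) * Real.pi / p) := by
      rw [mk_add_left, mk_smul_left, hN.unit, mk_comm (al 2), h12, cos_two_eq]; ring
    rw [hn]
    refine ⟨0, 1, 2 * Real.cos (Real.pi / p), by module, by positivity, ?_, ?_, ?_⟩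
    · rw [m0, cos_one_eq]
    · rw [m1]
    · refine fix_star hCHT _ al σ hN hS _ ?_ ?_
      · rw [m0]; exact hc
      · rw [m1]; exact hc2

end Pool.Agent.H49.TOH
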