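import Pool.Agent.H39.TO.Targets

/-!
# Board `toh_modules`: a common lemma for the rows XS1, XS2, XS3

From a reflection `r = w s_l w⁻¹` of a Coxeter group of rank three and two simple reflections to the polyhedron.
-/

set_option autoImplicit false

noncomputable section

namespace Pool.Agent.H49.TOH

open Pool.Agent.H57.CP Pool.Agent.H39.TO

theorem mk_comm (x y : V4) : mk x y = mk y x := by
  simp only [mk]; ring

theorem mk_add_left (x y z : V4) : mk (x + y) z = mk x z + mk y z := by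
  simp only [mk, Pi.add_apply]; ring

theorem mk_smul_left (c : ℝ) (x z : V4) : mk (c • x) z = c * mk x z := by
  simp only [mk, Pi.smul_apply, smul_eq_mul]; ring

theorem mk_add_right (x y z : V4) : mk z (x + y) = mk z x + mk z y := by
  simp only [mk, Pi.add_apply]; ring

theorem mk_smul_right (c : ℝ) (x z : V4) : mk z (c • x) = c * mk z x := by
  simp only [mk, Pi.smul_apply, smul_eq_mul]; ring

theorem mk_neg_left (x z : V4) : mk (-x) z = -mk x z := by
  simp only [mk, Pi.neg_apply]; ring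

theorem refl_eq (a x : V4) : refl a x = x + (2 * mk a x) • a := by
  ext i
  simp [Pool.Agent.H57.CP.refl]

/-- Conjugation of a reflection. -/
theorem refl_conj (A B : Module.End ℝ V4) (hA : Lor A) (hAB : A * B = 1) (a : V4) :
    A * refl a * B = refl (A a) := by
  refine LinearMap.ext fun y => ?_
  have h1 : A (B y) = y := by
    have := LinearMap.congr_fun hAB y
    simpa using this
  change A (refl a (B y)) = refl (A a) y
  rw [refl_eq, refl_eq, map_add, map_smul, h1]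
  have h2 : mk a (B y) = mk (A a) y := by
    rw [← hA.1 a (B y), h1]
  rw [h2]

/-- Order of an element. -/
theorem orderOf_of_dvd {G : Type} [Monoid G] (x : G) (p : ℕ) (h : ∀ m : ℕ, x ^ m = 1 ↔ p ∣ m) :
    orderOf x = p := by
  refine Nat.dvd_antisymm (orderOf_dvd_of_pow_eq_one ((h p).mpr dvd_rfl)) ?_
  exact (h _).mp (pow_orderOf_eq_one x)

/-- An element is a power of its `k`-th power. -/
theorem pow_inv_coprime {G : Type} [Monoid G] (x : G) (p k : ℕ) (hp : 2 ≤ p)
    (hk : Nat.Coprime k p) (h : x ^ p = 1) : ∃ j : ℕ, x = (x ^ k) ^ j := by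
  obtain ⟨j, hj⟩ := Nat.exists_mul_mod_eq_one_of_coprime hk (by omega : 1 < p)
  refine ⟨j, ?_⟩
  have h1 : k * j = p * (k * j / p) + 1 := by
    have := Nat.div_add_mod (k * j) p
    rw [hj.2] at this
    omega
  rw [← pow_mul, h1, pow_add, pow_mul, h, one_pow, one_mul, pow_one]

/-- The closure is everything if `s_2 s_i` is a power of `r s_i`. -/
theorem closure_top (M : CoxeterMatrix (Fin 3)) (p k : ℕ) (i : Fin 3) (r : M.Group) (hp : 2 ≤ p)
    (hk : Nat.Coprime k p) (hi : i = 0 ∨ i = 1) (hM : M 2 i = p)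
    (hr : r * ss M i = (ss M 2 * ss M i) ^ k) :
    Subgroup.closure {r, ss M 0, ss M 1} = ⊤ := by
  have h0 : ss M 0 ∈ Subgroup.closure {r, ss M 0, ss M 1} := Subgroup.subset_closure (by simp)
  have h1 : ss M 1 ∈ Subgroup.closure {r, ss M 0, ss M 1} := Subgroup.subset_closure (by simp)
  have hrm : r ∈ Subgroup.closure {r, ss M 0, ss M 1} := Subgroup.subset_closure (by simp)
  have hi' : ss M i ∈ Subgroup.closure {r, ss M 0, ss M 1} := by
    rcases hi with rfl | rfl
    · exact h0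
    · exact h1
  have h2 : (ss M 2 * ss M i) ^ p = 1 := by
    rw [← hM]
    exact M.toCoxeterSystem.simple_mul_simple_pow 2 i
  obtain ⟨j, hj⟩ := pow_inv_coprime _ p k hp hk h2
  have h3 : ss M 2 * ss M i ∈ Subgroup.closure {r, ss M 0, ss M 1} := by
    rw [hj, ← hr]
    exact Subgroup.pow_mem _ (Subgroup.mul_mem _ hrm hi') j
  have h4 : ss M 2 ∈ Subgroup.closure {r, ss M 0, ss M 1} := by
    have h5 : ss M 2 = ss M 2 * ss M i * ss M i := by
      rw [mul_assoc, M.toCoxeterSystem.simple_mul_simple_self, mul_one]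
    rw [h5]
    exact Subgroup.mul_mem _ h3 hi'
  rw [eq_top_iff, ← M.toCoxeterSystem.subgroup_closure_range_simple]
  refine Subgroup.closure_le _ |>.mpr ?_
  rintro _ ⟨j, rfl⟩
  fin_cases j
  · exact h0
  · exact h1
  · exact h4

/-- Independence of the three normals. -/
theorem li_star (al : Fin 3 → V4) (h : LinearIndependent ℝ al) (n : V4) (a b c : ℝ)
    (hn : n = a • al 0 + b • al 1 + c • al 2) (hc : c ≠ 0) :
    LinearIndependent ℝ ![n, al 0, al 1] := by
  rw [Fintype.linearIndependent_iff] at h ⊢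
  intro g hg
  simp only [Fin.sum_univ_three, Matrix.cons_val] at hg
  rw [hn] at hg
  have h1 := h ![g 0 * a + g 1, g 0 * b + g 2, g 0 * c] (by
    simp only [Fin.sum_univ_three, Matrix.cons_val]
    rw [← hg]
    module)
  have e2 := h1 2
  have e0 := h1 0
  have e1 := h1 1
  simp only [Matrix.cons_val] at e0 e1 e2
  have g0 : g 0 = 0 := by
    rcases mul_eq_zero.mp e2 with h | h
    · exact h
    · exact absurd h hc
  rw [g0] at e0 e1
  intro i
  fin_cases i
  · exact g0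
  · simpa using e0
  · simpa using e1

/-- Fixing the normal, from the chamber of the dihedral group. -/
theorem fix_star (hCHT : T_CHT) (M : CoxeterMatrix (Fin 3)) (al : Fin 3 → V4)
    (σ : M.Group →* Module.End ℝ V4) (hN : Nrm M al) (hS : Sg M al σ) (n : V4)
    (h0 : 0 < mk n (al 0)) (h1 : 0 < mk n (al 1)) :
    ∀ g ∈ Subgroup.closure {ss M 0, ss M 1}, σ g n = n → g = 1 := by
  intro g hg hgn
  refine hCHT M al σ hN hS 0 1 g (-n) (by decide) hg ?_ ?_ ?_
  · rw [mk_neg_left]; linarith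
  · rw [mk_neg_left]; linarith
  · rw [map_neg, hgn]

/-- THE COMMON LEMMA. -/
theorem star (hNRB : T_NRB) (hREP : T_REP) (hPSI : T_PSI) (hBWS : T_BWS) (hSGE : T_SGE)
    (hBEB : T_BEB) (hBEE : T_BEE) (hBEF : T_BEF) (hORR : T_ORR)
    (M : CoxeterMatrix (Fin 3)) (p N k k' : ℕ) (hN : M 0 1 = N) (hN2 : 2 ≤ N) (hp : 2 ≤ p)
    (hk : Nat.Coprime k p) (hk' : Nat.Coprime k' p) (w : M.Group) (l : Fin 3)
    (cl : Subgroup.closure {w * ss M l * w⁻¹, ss M 0, ss M 1} = ⊤)
    (H : ∀ al σ, Nrm M al → Sg M al σ → ∃ a b c : ℝ,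
      σ w (al l) = a • al 0 + b • al 1 + c • al 2 ∧ c ≠ 0 ∧
      (mk (σ w (al l)) (al 0)) ^ 2 = (Real.cos (k * Real.pi / p)) ^ 2 ∧
      (mk (σ w (al l)) (al 1)) ^ 2 = (Real.cos (k' * Real.pi / p)) ^ 2 ∧
      ∀ g ∈ Subgroup.closure {ss M 0, ss M 1}, σ g (σ w (al l)) = σ w (al l) → g = 1)
    (hne : (Real.cos (k * Real.pi / p)) ^ 2 ≠ (Real.cos (k' * Real.pi / p)) ^ 2) :
    ∃ K, IsGeo K ∧ Two K ∧ FS K = {(p : ℕ∞)} ∧ DG K = {((2 * N : ℕ) : ℕ∞)} := by
  obtain ⟨al, hNr, o0, o1, o2⟩ := hNRB M 0 1 2 (by decide) (by decide) (by decide)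
    (by rw [hN]; omega)
  obtain ⟨σ, hS⟩ := hREP M al hNr
  obtain ⟨ψ, hPs, hinj⟩ := hPSI M al σ hNr hS
  obtain ⟨hLor, hfaith, -⟩ := hSGE M al σ hNr hS
  obtain ⟨a, b, c, hn, hc, e0, e1, hfix⟩ := H al σ hNr hS
  set n : V4 := σ w (al l) with hndef
  -- basic facts on the normal
  have hnn : mk n n = -1 := by
    rw [hndef, (hLor w).1, hNr.unit]
  have hon : mk o.1 n = c * mk o.1 (al 2) := by
    rw [hn, mk_add_right, mk_add_right, mk_smul_right, mk_smul_right, mk_smul_right, o0, o1]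
    ring
  have hon0 : mk o.1 n ≠ 0 := by
    rw [hon]
    exact mul_ne_zero hc o2.ne
  have hB : BStr o (ψ (w * ss M l * w⁻¹)) (ψ (ss M 0)) (ψ (ss M 1)) :=
    hBWS M al σ ψ hNr hS hPs hinj 0 1 2 l w o (by decide) (by decide) (by decide)
      (by rw [hN]; omega) o0 o1 o2 _ rfl cl hon0 (li_star al hNr.li n a b c hn hc) hfix
  -- the linear map of r
  have hσr : σ (w * ss M l * w⁻¹) = refl n := by
    rw [map_mul, map_mul, hS l]
    refine refl_conj (σ w) (σ w⁻¹) (hLor w) ?_ (al l)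
    rw [← map_mul, mul_inv_cancel, map_one]
  -- orders
  have hord : ∀ (i : Fin 3) (q : ℕ), (mk n (al i)) ^ 2 = (Real.cos (q * Real.pi / p)) ^ 2 →
      Nat.Coprime q p → oE (ψ (w * ss M l * w⁻¹) * ψ (ss M i)) = (p : ℕ∞) := by
    intro i q hq hcop
    have h1 : orderOf (ψ (w * ss M l * w⁻¹) * ψ (ss M i)) = p := by
      rw [← map_mul, orderOf_injective ψ hinj]
      refine orderOf_of_dvd _ p fun m => ?_
      rw [← hORR n (al i) q p hnn (hNr.unit i) hp hcop hq m, ← hσr, ← hS i, ← map_mul, ← map_pow]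
      exact ⟨fun h => by rw [h, map_one], fun h => hfaith _ h⟩
    unfold oE
    rw [h1, if_neg (by omega)]
  have hord2 : oE (ψ (ss M 0) * ψ (ss M 1)) = (N : ℕ∞) := by
    have h1 : orderOf (ψ (ss M 0) * ψ (ss M 1)) = N := by
      rw [← map_mul, orderOf_injective ψ hinj]
      refine orderOf_of_dvd _ N fun m => ?_
      have h2 : (mk (al 0) (al 1)) ^ 2 = (Real.cos ((1 : ℕ) * Real.pi / N)) ^ 2 := by
        rw [hNr.fin 0 1 (by decide) (by rw [hN]; omega), hN]
        norm_num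
      rw [← hORR (al 0) (al 1) 1 N (hNr.unit 0) (hNr.unit 1) hN2 (Nat.coprime_one_left N) h2 m,
        ← hS 0, ← hS 1, ← map_mul, ← map_pow]
      exact ⟨fun h => by rw [h, map_one], fun h => hfaith _ h⟩
    unfold oE
    rw [h1, if_neg (by omega)]
  have hE := hBEE o _ _ _ hB
  refine ⟨KB o (ψ (w * ss M l * w⁻¹)) (ψ (ss M 0)) (ψ (ss M 1)), hBEB o _ _ _ hB, ?_, ?_, ?_⟩
  · refine hBEF o _ _ _ hB (Or.inr ?_)
    have hx : ((ψ (w * ss M l * w⁻¹)) o).1 = o.1 + (2 * mk n o.1) • n := by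
      rw [← (hPs (w * ss M l * w⁻¹)).2 o, hσr, refl_eq]
    have hch : ∀ i : Fin 3, mk o.1 (al i) = 0 →
        ch ((ψ (w * ss M l * w⁻¹)) o) (ψ (ss M i) ((ψ (w * ss M l * w⁻¹)) o)) =
        1 + 8 * (mk n o.1) ^ 2 * (mk n (al i)) ^ 2 := by
      intro i hi
      set x := (ψ (w * ss M l * w⁻¹)) o with hxdef
      have h1 : (ψ (ss M i) x).1 = x.1 + (2 * mk (al i) x.1) • al i := by
        rw [← (hPs (ss M i)).2 x, hS i, refl_eq]
      have h2 : mk (al i) x.1 = 2 * mk n o.1 * mk n (al i) := by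
        rw [hx, mk_add_right, mk_smul_right, mk_comm (al i) o.1, hi, mk_comm (al i) n]
        ring
      have h3 : mk x.1 x.1 = 1 := x.2.1
      unfold ch
      rw [h1, mk_add_right, mk_smul_right, h3, mk_comm x.1 (al i), h2]
      ring
    rw [hch 0 o0, hch 1 o1, e0, e1]
    intro hcon
    have h4 : (mk n o.1) ^ 2 ≠ 0 := pow_ne_zero 2 (by rw [mk_comm]; exact hon0)
    apply hne
    have h5 : (8 * (mk n o.1) ^ 2) * ((Real.cos (k * Real.pi / p)) ^ 2 -
        (Real.cos (k' * Real.pi / p)) ^ 2) = 0 := by linarith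
    rcases mul_eq_zero.mp h5 with h6 | h6
    · exact absurd h6 (mul_ne_zero (by norm_num) h4)
    · linarith
  · rw [hE.1, hord 0 k e0 hk, hord 1 k' e1 hk']
    simp
  · rw [hE.2, hord2]
    norm_cast

end Pool.Agent.H49.TOH
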