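import Pool.Agent.H49.TOH.XS3

/-!
# Board `toh_modules`, row XS1
-/

set_option autoImplicit false

noncomputable section

namespace Pool.Agent.H49.TOH

open Pool.Agent.H57.CP Pool.Agent.H39.TO

theorem pf_XS1 (hNRB : T_NRB) (hREP : T_REP) (hPSI : T_PSI) (hBWS : T_BWS) (hCHT : T_CHT)
    (hSGE : T_SGE) (hBEB : T_BEB) (hBEE : T_BEE) (hBEF : T_BEF) (hORR : T_ORR) : T_XS1 := by
  intro p hodd hp
  have hne : 2 ≠ 1 ∧ p ≠ 1 ∧ 3 ≠ 1 := ⟨by omega, by omega, by omega⟩
  have h := star hNRB hREP hPSI hBWS hSGE hBEB hBEE hBEF hORR (cox 2 p 3 hne) p 2 2 1 rfl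
    le_rfl (by omega) (cop_two p hodd) (Nat.coprime_one_left p) (ss (cox 2 p 3 hne) 2) 0 ?_ ?_
    (cos_sq_ne p 1 2 (by omega) (by omega) (by omega)).symm
  · exact h
  · refine closure_top (cox 2 p 3 hne) p 2 0 _ (by omega) (cop_two p hodd) (Or.inl rfl) rfl ?_
    rw [CoxeterSystem.inv_simple, pow_two]
    simp only [mul_assoc]
  · intro al σ hN hS
    have h01 : mk (al 0) (al 1) = 0 := by
      have := hN.fin 0 1 (by decide) (by change (2 : ℕ) ≠ 0; omega)
      rw [this]
      exact cos_pi_two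
    have h02 : mk (al 0) (al 2) = Real.cos (Real.pi / p) :=
      hN.fin 0 2 (by decide) (by change p ≠ 0; omega)
    have h12 : mk (al 1) (al 2) = 1 / 2 := by
      have := hN.fin 1 2 (by decide) (by change (3 : ℕ) ≠ 0; omega)
      rw [this]
      exact cos_pi_three
    have hn : σ (ss (cox 2 p 3 hne) 2) (al 0) = al 0 + (2 * Real.cos (Real.pi / p)) • al 2 := by
      rw [hS 2, refl_eq, mk_comm (al 2) (al 0), h02]
    have hc : 0 < Real.cos (Real.pi / p) := by
      have := cos_pos_of p hp 1 (by omega)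
      rwa [cos_one_eq] at this
    have hc2 : 0 < Real.cos ((2 : ℕ) * Real.pi / p) := cos_pos_of p hp 2 (by omega)
    have m0 : mk (al 0 + (2 * Real.cos (Real.pi / p)) • al 2) (al 0) =
        Real.cos ((2 : ℕ) * Real.pi / p) := by
      rw [mk_add_left, mk_smul_left, hN.unit, mk_comm (al 2), h02, cos_two_eq]; ring
    have m1 : mk (al 0 + (2 * Real.cos (Real.pi / p)) • al 2) (al 1) = Real.cos (Real.pi / p) := by
      rw [mk_add_left, mk_smul_left, mk_comm (al 2), h01, h12]; ring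
    rw [hn]
    refine ⟨1, 0, 2 * Real.cos (Real.pi / p), by module, by positivity, ?_, ?_, ?_⟩
    · rw [m0]
    · rw [m1, cos_one_eq]
    · refine fix_star hCHT _ al σ hN hS _ ?_ ?_
      · rw [m0]; exact hc2
      · rw [m1]; exact hc

end Pool.Agent.H49.TOH
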